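import Pool.Agent.helper88.OF.Defs
import Pool.Agent.helper30.QR.XB
import Pool.Agent.helper46.OF.SC
import Pool.Agent.helper49.OF.EC

/-! # Project OF, module CP: classification of `P` -/

namespace Pool.Agent.helper88.OF

open Finset Pool.Agent.helper76.LP

/-! ### the function `orb` -/

lemma CP_orb_u {D : ℕ} (H : Subgroup (ZMod D)ˣ) (u g : (ZMod D)ˣ) (huu : u * u = 1) :
    orb H u (u * g) = - orb H u g := by
  unfold orb
  rw [← mul_assoc u u g, huu, one_mul]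
  ring

lemma CP_orb_neg {D : ℕ} (H : Subgroup (ZMod D)ˣ) (u g : (ZMod D)ˣ) :
    orb H u (-g) = - orb H u g := by
  unfold orb
  rw [mul_neg, neg_neg, neg_neg]
  ring

lemma CP_ind_pos {G : Type*} [Group G] (H : Subgroup G) (g : G) (h : g ∈ H) : ind H g = 1 := by
  unfold ind; rw [if_pos h]

lemma CP_ind_neg {G : Type*} [Group G] (H : Subgroup G) (g : G) (h : g ∉ H) : ind H g = 0 := by
  unfold ind; rw [if_neg h]

lemma CP_abs {D : ℕ} (H : Subgroup (ZMod D)ˣ) (u g : (ZMod D)ˣ) (hu : u ∉ H)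
    (hn : (-1 : (ZMod D)ˣ) ∉ H) (hnu : -u ∉ H) :
    |orb H u g| = ind H g + ind H (u * g) + ind H (-g) + ind H (-(u * g)) := by
  have e1 : u * g * g⁻¹ = u := by group
  have e2 : -g * g⁻¹ = -1 := by rw [neg_mul, mul_inv_cancel]
  have e3 : -(u * g) * g⁻¹ = -u := by rw [neg_mul, mul_assoc, mul_inv_cancel, mul_one]
  have e4 : -(u * g) * (-g)⁻¹ = u := by
    rw [inv_neg, neg_mul_neg, mul_assoc, mul_inv_cancel, mul_one]
  have e5 : -(u * g) * (u * g)⁻¹ = -1 := by rw [neg_mul, mul_inv_cancel]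
  have e6 : u * g * (-g)⁻¹ = -u := by
    rw [inv_neg, mul_neg, mul_assoc, mul_inv_cancel, mul_one]
  unfold orb
  by_cases a1 : g ∈ H
  · have a2 : u * g ∉ H := fun h => hu (by rw [← e1]; exact H.mul_mem h (H.inv_mem a1))
    have a3 : -g ∉ H := fun h => hn (by rw [← e2]; exact H.mul_mem h (H.inv_mem a1))
    have a4 : -(u * g) ∉ H := fun h => hnu (by rw [← e3]; exact H.mul_mem h (H.inv_mem a1))
    rw [CP_ind_pos H g a1, CP_ind_neg H _ a2, CP_ind_neg H _ a3, CP_ind_neg H _ a4]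
    norm_num
  · by_cases a2 : u * g ∈ H
    · have a3 : -g ∉ H := fun h => hnu (by rw [← e6]; exact H.mul_mem a2 (H.inv_mem h))
      have a4 : -(u * g) ∉ H := fun h => hn (by rw [← e5]; exact H.mul_mem h (H.inv_mem a2))
      rw [CP_ind_neg H g a1, CP_ind_pos H _ a2, CP_ind_neg H _ a3, CP_ind_neg H _ a4]
      norm_num
    · by_cases a3 : -g ∈ H
      · have a4 : -(u * g) ∉ H := fun h => hu (by rw [← e4]; exact H.mul_mem h (H.inv_mem a3))
        rw [CP_ind_neg H g a1, CP_ind_neg H _ a2, CP_ind_pos H _ a3, CP_ind_neg H _ a4]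
        norm_num
      · by_cases a4 : -(u * g) ∈ H
        · rw [CP_ind_neg H g a1, CP_ind_neg H _ a2, CP_ind_neg H _ a3, CP_ind_pos H _ a4]
          norm_num
        · rw [CP_ind_neg H g a1, CP_ind_neg H _ a2, CP_ind_neg H _ a3, CP_ind_neg H _ a4]
          norm_num

lemma CP_sum_ind {G : Type*} [Group G] [Fintype G] (H : Subgroup G) :
    ∑ g : G, ind H g = (Nat.card H : ℤ) := by
  classical
  unfold ind
  rw [Finset.sum_boole]
  congr 1
  rw [Nat.card_eq_fintype_card]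
  exact (Fintype.card_subtype _).symm

lemma CP_sum_orb {D : ℕ} [NeZero D] (H : Subgroup (ZMod D)ˣ) (u : (ZMod D)ˣ) (hu : u ∉ H)
    (hn : (-1 : (ZMod D)ˣ) ∉ H) (hnu : -u ∉ H) :
    ∑ g, |orb H u g| = 4 * (Nat.card H : ℤ) := by
  simp_rw [CP_abs H u _ hu hn hnu]
  rw [Finset.sum_add_distrib, Finset.sum_add_distrib, Finset.sum_add_distrib, CP_sum_ind]
  have h1 : ∑ g, ind H (u * g) = (Nat.card H : ℤ) := by
    rw [← CP_sum_ind H]
    exact Equiv.sum_comp (Equiv.mulLeft u) (fun g => ind H g)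
  have h2 : ∑ g : (ZMod D)ˣ, ind H (-g) = (Nat.card H : ℤ) := by
    rw [← CP_sum_ind H]
    exact Equiv.sum_comp (Equiv.neg (ZMod D)ˣ) (fun g => ind H g)
  have h3 : ∑ g : (ZMod D)ˣ, ind H (-(u * g)) = (Nat.card H : ℤ) := by
    rw [← h2]
    exact Equiv.sum_comp (Equiv.mulLeft u) (fun g => ind H (-g))
  rw [h1, h2, h3]; ring

/-! ### from local to global -/

lemma CP_main {D : ℕ} [NeZero D] (u : (ZMod D)ˣ) (huu : u * u = 1) (K : Subgroup (ZMod D)ˣ)
    (P : (ZMod D)ˣ → ℤ) (hodd : ∀ x, P (-x) = - P x) (hP : ∀ x, P (u * x) = - P x)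
    (h24 : ∑ x, |P x| ≤ 24) (Γ : ℕ → Subgroup (ZMod D)ˣ) (S : Finset ℕ)
    (hloc : ∀ y, P y ≠ 0 → ∃ p ∈ S, Nat.card (Γ p) ≤ 6 ∧ 4 ≤ Nat.card (Γ p) ∧ Γ p ≤ K ∧
      u ∉ Γ p ∧ -1 ∉ Γ p ∧ -u ∉ Γ p ∧ ∀ w ∈ K, P (w * y) = P y * orb (Γ p) u w) :
    (∀ x, P x = 0) ∨ ∃ p ∈ S, Nat.card (Γ p) ≤ 6 ∧
      ∃ x₀ : (ZMod D)ˣ, ∀ x, P x = orb (Γ p) u (x * x₀⁻¹) := by
  classical
  by_cases h0 : ∀ x, P x = 0
  · exact Or.inl h0
  right
  obtain ⟨x₀, hx₀⟩ : ∃ x₀, 0 < P x₀ := by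
    push Not at h0
    obtain ⟨x, hx⟩ := h0
    rcases lt_or_gt_of_ne hx with h | h
    · exact ⟨u * x, by rw [hP]; linarith⟩
    · exact ⟨x, h⟩
  set M : Subgroup (ZMod D)ˣ := K ⊔ Subgroup.closure {u, -1} with hM
  have hKM : K ≤ M := le_sup_left
  have huM : u ∈ M := (le_sup_right : _ ≤ M) (Subgroup.subset_closure (by simp))
  have hnM : (-1 : (ZMod D)ˣ) ∈ M := (le_sup_right : _ ≤ M) (Subgroup.subset_closure (by simp))
  -- signs
  have hsign : ∀ (H : Subgroup (ZMod D)ˣ) (c : (ZMod D)ˣ), c ∈ Subgroup.closure {u, -1} →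
      ∃ s : ℤ, s * s = 1 ∧ (∀ x, P (c * x) = s * P x) ∧
        (∀ g, orb H u (c * g) = s * orb H u g) := by
    intro H c hc
    induction hc using Subgroup.closure_induction with
    | mem c hc =>
      refine ⟨-1, by norm_num, ?_, ?_⟩
      · intro x
        rcases hc with rfl | hc
        · rw [hP]; ring
        · rw [Set.mem_singleton_iff] at hc
          rw [hc, neg_one_mul, hodd]; ring
      · intro g
        rcases hc with rfl | hc
        · rw [CP_orb_u _ _ _ huu]; ring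
        · rw [Set.mem_singleton_iff] at hc
          rw [hc, neg_one_mul, CP_orb_neg]; ring
    | one => exact ⟨1, by norm_num, by simp, by simp⟩
    | mul a b _ _ iha ihb =>
      obtain ⟨s, hs, h1, h2⟩ := iha
      obtain ⟨t, ht, h3, h4⟩ := ihb
      refine ⟨s * t, by rw [mul_mul_mul_comm, hs, ht, one_mul], ?_, ?_⟩
      · intro x; rw [mul_assoc, h1, h3]; ring
      · intro g; rw [mul_assoc, h2, h4]; ring
    | inv a _ iha =>
      obtain ⟨s, hs, h1, h2⟩ := iha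
      refine ⟨s, hs, ?_, ?_⟩
      · intro x
        have := h1 (a⁻¹ * x)
        rw [mul_inv_cancel_left] at this
        rw [this, ← mul_assoc, hs, one_mul]
      · intro g
        have := h2 (a⁻¹ * g)
        rw [mul_inv_cancel_left] at this
        rw [this, ← mul_assoc, hs, one_mul]
  -- the values on the coset of `M`
  have hval : ∀ (H : Subgroup (ZMod D)ˣ) (y : (ZMod D)ˣ),
      (∀ w ∈ K, P (w * y) = P y * orb H u w) → ∀ g ∈ M, P (g * y) = P y * orb H u g := by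
    intro H y h g hg
    obtain ⟨k, hk, c, hc, rfl⟩ := Subgroup.mem_sup.1 hg
    obtain ⟨s, _, h1, h2⟩ := hsign H c hc
    rw [mul_comm k c, mul_assoc, h1, h k hk, h2]; ring
  -- outside of `M`
  have hout : ∀ (H : Subgroup (ZMod D)ˣ), H ≤ K → ∀ g, g ∉ M → orb H u g = 0 := by
    intro H hHK g hg
    have hHM := hHK.trans hKM
    unfold orb
    have a1 : g ∉ H := fun h => hg (hHM h)
    have a2 : u * g ∉ H := fun h => hg (by
      have := M.mul_mem (M.inv_mem huM) (hHM h)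
      rwa [inv_mul_cancel_left] at this)
    have a3 : -g ∉ H := fun h => hg (by
      have := M.mul_mem hnM (hHM h)
      rwa [neg_one_mul, neg_neg] at this)
    have a4 : -(u * g) ∉ H := fun h => hg (by
      have := M.mul_mem (M.inv_mem huM) (M.mul_mem hnM (hHM h))
      rwa [neg_one_mul, neg_neg, inv_mul_cancel_left] at this)
    rw [CP_ind_neg H _ a1, CP_ind_neg H _ a2, CP_ind_neg H _ a3, CP_ind_neg H _ a4]
    norm_num
  obtain ⟨p, hpS, hp6, hp4, hpK, hpu, hpn, hpnu, hpv⟩ := hloc x₀ hx₀.ne'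
  have htr : ∀ (H : Subgroup (ZMod D)ˣ) (y : (ZMod D)ˣ),
      ∑ x, |orb H u (x * y⁻¹)| = ∑ g, |orb H u g| := by
    intro H y
    exact Equiv.sum_comp (Equiv.mulRight y⁻¹) (fun g => |orb H u g|)
  have hle : ∀ (H : Subgroup (ZMod D)ˣ) (y : (ZMod D)ˣ), H ≤ K →
      (∀ w ∈ K, P (w * y) = P y * orb H u w) → ∀ x, |P y| * |orb H u (x * y⁻¹)| ≤ |P x| := by
    intro H y hHK h x
    by_cases hx : x * y⁻¹ ∈ M
    · have := hval H y h _ hx
      rw [inv_mul_cancel_right] at this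
      rw [this, abs_mul]
    · rw [hout H hHK _ hx, abs_zero, mul_zero]
      exact abs_nonneg _
  have hone : P x₀ = 1 := by
    have h1 : ∑ x, |P x₀| * |orb (Γ p) u (x * x₀⁻¹)| ≤ ∑ x, |P x| :=
      Finset.sum_le_sum fun x _ => hle (Γ p) x₀ hpK hpv x
    rw [← Finset.mul_sum, htr, CP_sum_orb _ _ hpu hpn hpnu, abs_of_pos hx₀] at h1
    have h2 : (4 : ℤ) ≤ Nat.card (Γ p) := by exact_mod_cast hp4
    nlinarith
  refine ⟨p, hpS, hp6, x₀, ?_⟩
  intro x
  by_cases hx : x * x₀⁻¹ ∈ M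
  · have := hval (Γ p) x₀ hpv _ hx
    rw [inv_mul_cancel_right, hone, one_mul] at this
    exact this
  · rw [hout _ hpK _ hx]
    by_contra hPx
    obtain ⟨q, hqS, hq6, hq4, hqK, hqu, hqn, hqnu, hqv⟩ := hloc x hPx
    have h1 : ∑ z, (|P x₀| * |orb (Γ p) u (z * x₀⁻¹)| + |P x| * |orb (Γ q) u (z * x⁻¹)|) ≤
        ∑ z, |P z| := by
      apply Finset.sum_le_sum
      intro z _
      by_cases hz : z * x₀⁻¹ ∈ M
      · have hz' : z * x⁻¹ ∉ M := by
          intro h
          apply hx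
          have := M.mul_mem (M.inv_mem h) hz
          have h4 : (z * x⁻¹)⁻¹ * (z * x₀⁻¹) = x * x₀⁻¹ := by group
          rwa [h4] at this
        rw [hout _ hqK _ hz', abs_zero, mul_zero, add_zero]
        exact hle (Γ p) x₀ hpK hpv z
      · rw [hout _ hpK _ hz, abs_zero, mul_zero, zero_add]
        exact hle (Γ q) x hqK hqv z
    rw [Finset.sum_add_distrib, ← Finset.mul_sum, ← Finset.mul_sum, htr, htr,
      CP_sum_orb _ _ hpu hpn hpnu, CP_sum_orb _ _ hqu hqn hqnu] at h1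
    have h2 : (4 : ℤ) ≤ Nat.card (Γ p) := by exact_mod_cast hp4
    have h3 : (4 : ℤ) ≤ Nat.card (Γ q) := by exact_mod_cast hq4
    have h4 : 1 ≤ |P x| := Int.one_le_abs hPx
    rw [hone, abs_one] at h1
    nlinarith

/-! ### arithmetic -/

lemma CP_five {p : ℕ} (hp : p.Prime) (h2 : p ≠ 2) (h3 : p ≠ 3) : 5 ≤ p := by
  have := hp.two_le
  have h4 : p ≠ 4 := by rintro rfl; norm_num at hp
  omega

lemma CP_card (D p : ℕ) [NeZero D] (hpp : p.Prime) (hpd : p ∣ D) (h2 : p ≠ 2) (h3 : p ≠ 3) :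
    4 ≤ Nat.card (Gam D p) ∧ (p ≠ 5 → 6 ≤ Nat.card (Gam D p)) ∧
      (11 ≤ p → 10 ≤ Nat.card (Gam D p)) := by
  have h5 := CP_five hpp h2 h3
  rw [card_Gam D p hpp hpd]
  have h6 : p ≠ 6 := by rintro rfl; norm_num at hpp
  refine ⟨?_, ?_, ?_⟩
  · split_ifs <;> omega
  · intro h
    split_ifs <;> omega
  · intro h
    split_ifs <;> omega

/-- `-u` is not `1` modulo `r` if `u` is -/
lemma CP_neg_ne (D r : ℕ) [NeZero D] (hr : r ∣ D) (hr2 : 3 ≤ r) (u : (ZMod D)ˣ)
    (hu : ZMod.castHom hr (ZMod r) (u : ZMod D) = 1) :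
    ZMod.castHom hr (ZMod r) ((-u : (ZMod D)ˣ) : ZMod D) ≠ 1 := by
  intro h
  rw [Units.val_neg, map_neg, hu] at h
  have h2 : ((2 : ℕ) : ZMod r) = 0 := by
    push_cast
    linear_combination -h
  rw [ZMod.natCast_eq_zero_iff] at h2
  have := Nat.le_of_dvd (by norm_num) h2
  omega

lemma CP_le_Pl {G ι : Type*} [CommGroup G] (Γ : ι → Subgroup G) (L : List ι) (i : ι)
    (hi : i ∈ L) : Γ i ≤ Pl Γ L := by
  induction L with
  | nil => simp at hi
  | cons j L ih =>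
    rcases List.mem_cons.1 hi with rfl | h
    · exact le_sup_left
    · exact (ih h).trans le_sup_right

lemma CP_Pl_le {G ι : Type*} [CommGroup G] (Γ : ι → Subgroup G) (L : List ι) (K : Subgroup G)
    (h : ∀ i ∈ L, Γ i ≤ K) : Pl Γ L ≤ K := by
  induction L with
  | nil => exact bot_le
  | cons j L ih =>
    exact sup_le (h j List.mem_cons_self) (ih fun i hi => h i (List.mem_cons_of_mem _ hi))

lemma CP_abs_le {D : ℕ} (H : Subgroup (ZMod D)ˣ) (u g : (ZMod D)ˣ) (hu : u ∉ H)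
    (hn : (-1 : (ZMod D)ˣ) ∉ H) (hnu : -u ∉ H) : |orb H u g| ≤ 1 := by
  have e1 : u * g * g⁻¹ = u := by group
  have e2 : -g * g⁻¹ = -1 := by rw [neg_mul, mul_inv_cancel]
  have e5 : -(u * g) * (u * g)⁻¹ = -1 := by rw [neg_mul, mul_inv_cancel]
  have e3 : -(u * g) * g⁻¹ = -u := by rw [neg_mul, mul_assoc, mul_inv_cancel, mul_one]
  have e4 : -(u * g) * (-g)⁻¹ = u := by
    rw [inv_neg, neg_mul_neg, mul_assoc, mul_inv_cancel, mul_one]
  have e6 : u * g * (-g)⁻¹ = -u := by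
    rw [inv_neg, mul_neg, mul_assoc, mul_inv_cancel, mul_one]
  rw [CP_abs H u g hu hn hnu]
  by_cases a1 : g ∈ H
  · have a2 : u * g ∉ H := fun h => hu (by rw [← e1]; exact H.mul_mem h (H.inv_mem a1))
    have a3 : -g ∉ H := fun h => hn (by rw [← e2]; exact H.mul_mem h (H.inv_mem a1))
    have a4 : -(u * g) ∉ H := fun h => hnu (by rw [← e3]; exact H.mul_mem h (H.inv_mem a1))
    rw [CP_ind_pos H g a1, CP_ind_neg H _ a2, CP_ind_neg H _ a3, CP_ind_neg H _ a4]
    norm_num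
  · by_cases a2 : u * g ∈ H
    · have a3 : -g ∉ H := fun h => hnu (by rw [← e6]; exact H.mul_mem a2 (H.inv_mem h))
      have a4 : -(u * g) ∉ H := fun h => hn (by rw [← e5]; exact H.mul_mem h (H.inv_mem a2))
      rw [CP_ind_neg H g a1, CP_ind_pos H _ a2, CP_ind_neg H _ a3, CP_ind_neg H _ a4]
      norm_num
    · by_cases a3 : -g ∈ H
      · have a4 : -(u * g) ∉ H := fun h => hu (by rw [← e4]; exact H.mul_mem h (H.inv_mem a3))
        rw [CP_ind_neg H g a1, CP_ind_neg H _ a2, CP_ind_pos H _ a3, CP_ind_neg H _ a4]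
        norm_num
      · by_cases a4 : -(u * g) ∈ H
        · rw [CP_ind_neg H g a1, CP_ind_neg H _ a2, CP_ind_neg H _ a3, CP_ind_pos H _ a4]
          norm_num
        · rw [CP_ind_neg H g a1, CP_ind_neg H _ a2, CP_ind_neg H _ a3, CP_ind_neg H _ a4]
          norm_num

/-- four disjoint cosets -/
lemma CP_sl4 {D : ℕ} [NeZero D] (Γ : ℕ → Subgroup (ZMod D)ˣ) (L : List ℕ) (u : (ZMod D)ˣ)
    (hu : u ∉ Pl Γ L) (hn : (-1 : (ZMod D)ˣ) ∉ Pl Γ L) (hnu : -u ∉ Pl Γ L)
    (P : (ZMod D)ˣ → ℤ) (hodd : ∀ x, P (-x) = - P x) (hP : ∀ x, P (u * x) = - P x)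
    (a : (ZMod D)ˣ) : 4 * (Sl Γ L P a : ℤ) ≤ ∑ x, |P x| := by
  classical
  set K := Pl Γ L with hK
  set χ : (ZMod D)ˣ → ℤ := fun x => if P x = 0 then 0 else 1 with hχ
  have hχu : ∀ x, χ (u * x) = χ x := by
    intro x; simp only [hχ, hP, neg_eq_zero]
  have hχn : ∀ x, χ (-x) = χ x := by
    intro x; simp only [hχ, hodd, neg_eq_zero]
  have h0 : ∑ x, χ x * ind K (x * a⁻¹) = (Sl Γ L P a : ℤ) := by
    unfold Sl
    rw [Nat.card_eq_fintype_card, Fintype.card_subtype, Finset.card_filter, Nat.cast_sum]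
    apply Finset.sum_congr rfl
    intro x _
    simp only [hχ, ← hK]
    by_cases h1 : x * a⁻¹ ∈ K <;> by_cases h2 : P x = 0
    · simp [h1, h2, CP_ind_pos]
    · simp [h1, h2, CP_ind_pos]
    · simp [h1, h2, CP_ind_neg]
    · simp [h1, h2, CP_ind_neg]
  have h1 : ∑ x, χ x * ind K (u * (x * a⁻¹)) = (Sl Γ L P a : ℤ) := by
    rw [← h0, ← Equiv.sum_comp (Equiv.mulLeft u) (fun x => χ x * ind K (x * a⁻¹))]
    apply Finset.sum_congr rfl
    intro x _
    rw [Equiv.coe_mulLeft, hχu, mul_assoc]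
  have h2 : ∑ x, χ x * ind K (-(x * a⁻¹)) = (Sl Γ L P a : ℤ) := by
    rw [← h0, ← Equiv.sum_comp (Equiv.neg (ZMod D)ˣ) (fun x => χ x * ind K (x * a⁻¹))]
    apply Finset.sum_congr rfl
    intro x _
    rw [Equiv.neg_apply, hχn, neg_mul]
  have h3 : ∑ x, χ x * ind K (-(u * (x * a⁻¹))) = (Sl Γ L P a : ℤ) := by
    rw [← h1, ← Equiv.sum_comp (Equiv.neg (ZMod D)ˣ) (fun x => χ x * ind K (u * (x * a⁻¹)))]
    apply Finset.sum_congr rfl
    intro x _
    rw [Equiv.neg_apply, hχn, neg_mul, mul_neg]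
  have h4 : ∑ x, χ x * |orb K u (x * a⁻¹)| = 4 * (Sl Γ L P a : ℤ) := by
    simp_rw [CP_abs K u _ hu hn hnu, mul_add]
    rw [Finset.sum_add_distrib, Finset.sum_add_distrib, Finset.sum_add_distrib, h0, h1, h2, h3]
    ring
  rw [← h4]
  apply Finset.sum_le_sum
  intro x _
  have h5 := CP_abs_le K u (x * a⁻¹) hu hn hnu
  simp only [hχ]
  split_ifs with h
  · rw [zero_mul]; exact abs_nonneg _
  · rw [one_mul]
    exact h5.trans (Int.one_le_abs h)

theorem class_P (D : ℕ) [NeZero D] (h2 : Odd D) (h3 : 3 ∣ D) (h9 : ¬ 9 ∣ D) (hD3 : D ≠ 3)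
    (hpr : ¬ (D / 3).Prime)
    (u : (ZMod D)ˣ) (hu : u ∈ Gam D 3) (hu1 : u ≠ 1) (P : (ZMod D)ˣ → ℤ)
    (hodd : ∀ x, P (-x) = - P x) (hP : ∀ x, P (u * x) = - P x)
    (hM : ∀ L : List ℕ, L.Nodup → L.toFinset = (D / 3).primeFactors → MDv (Gam D) L P)
    (h24 : ∑ x, |P x| ≤ 24) (h105 : D = 105 → ∑ x, |P x| < 24) :
    (∀ x, P x = 0) ∨ ∃ p ∈ (D / 3).primeFactors, Nat.card (Gam D p) ≤ 6 ∧
      ∃ x₀ : (ZMod D)ˣ, ∀ x, P x = orb (Gam D p) u (x * x₀⁻¹) := by
  classical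
  have hD0 : 0 < D := Nat.pos_of_ne_zero (NeZero.ne D)
  obtain ⟨E, hE⟩ : ∃ E, E = D / 3 := ⟨_, rfl⟩
  have hDE : D = 3 * E := by rw [hE]; exact (Nat.mul_div_cancel' h3).symm
  rw [← hE] at hpr hM ⊢
  have hE0 : E ≠ 0 := by rintro rfl; omega
  have hE3 : ¬ 3 ∣ E := by
    intro h
    apply h9
    rw [hDE]
    obtain ⟨k, rfl⟩ := h
    exact ⟨k, by ring⟩
  have hED : E ∣ D := ⟨3, by rw [hDE]; ring⟩
  -- the primes
  have hprime : ∀ p ∈ E.primeFactors, p.Prime ∧ p ∣ D ∧ p ≠ 2 ∧ p ≠ 3 ∧ p ∣ E := by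
    intro p hp
    have hpp := Nat.prime_of_mem_primeFactors hp
    have hpe := Nat.dvd_of_mem_primeFactors hp
    refine ⟨hpp, hpe.trans hED, ?_, ?_, hpe⟩
    · rintro rfl
      exact (Nat.not_even_iff_odd.2 h2) (even_iff_two_dvd.2 (hpe.trans hED))
    · rintro rfl
      exact hE3 hpe
  have hcard : ∀ p ∈ E.primeFactors, 4 ≤ Nat.card (Gam D p) ∧ (p ≠ 5 → 6 ≤ Nat.card (Gam D p)) ∧
      (11 ≤ p → 10 ≤ Nat.card (Gam D p)) := by
    intro p hp
    obtain ⟨a, b, c, d, _⟩ := hprime p hp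
    exact CP_card D p a b c d
  have hpair : ∀ p ∈ E.primeFactors, ∀ q ∈ E.primeFactors, p ≠ q →
      Nat.card (Gam D p) = 4 → 5 ≤ Nat.card (Gam D q) := by
    intro p hp q hq hpq h4
    by_cases h5 : p = 5
    · have := (hcard q hq).2.1 (by rw [h5] at hpq; exact hpq.symm)
      omega
    · have := (hcard p hp).2.1 h5
      omega
  -- the basic facts on `u`
  have hcu : ∀ r (hr : r ∣ E), ZMod.castHom (hr.trans hED) (ZMod r) (u : ZMod D) = 1 := by
    intro r hr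
    have h1 : u ∈ Pl (Gam D) [3] := by
      show u ∈ Gam D 3 ⊔ ⊥
      rw [sup_bot_eq]; exact hu
    refine Pl_Gam_cast D r (hr.trans hED) [3] ?_ u h1
    intro p hp
    rw [List.mem_singleton] at hp
    subst hp
    exact ⟨h3, by rw [← hE]; exact hr⟩
  have huu : u * u = 1 := by
    have h1 : Nat.card (Gam D 3) = 2 := by
      rw [card_Gam D 3 Nat.prime_three h3, if_neg (by norm_num; exact h9)]
    have h4 : (⟨u, hu⟩ : Gam D 3) ^ Nat.card (Gam D 3) = 1 := pow_card_eq_one'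
    rw [h1, pow_two] at h4
    exact congrArg Subtype.val h4
  -- divisibility
  have hdiv : ∀ p ∈ E.primeFactors, ∀ r, r.Prime → r ∣ D → p ≠ r → r ∣ D / p := by
    intro p hp r hr hrD hne
    obtain ⟨hpp, hpd, _, _, _⟩ := hprime p hp
    have hcop : Nat.Coprime p r := (Nat.coprime_primes hpp hr).2 hne
    exact (Nat.dvd_div_iff_mul_dvd hpd).2 (hcop.mul_dvd_of_dvd_of_dvd hpd hrD)
  -- a list for the primes of `E`
  have hgen : ∀ L : List ℕ, L.Nodup → L.toFinset = E.primeFactors →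
      Indep (Gam D) (3 :: L) ∧ u ∉ Pl (Gam D) L ∧ -1 ∉ Pl (Gam D) L := by
    intro L hL hLE
    have hmem : ∀ p, p ∈ L ↔ p ∈ E.primeFactors := by
      intro p; rw [← hLE, List.mem_toFinset]
    have h3L : 3 ∉ L := by
      intro h
      exact (hprime 3 ((hmem 3).1 h)).2.2.2.1 rfl
    have hI : Indep (Gam D) (3 :: L) := by
      refine indep_Gam D _ (List.nodup_cons.2 ⟨h3L, hL⟩) ?_
      intro p hp
      rcases List.mem_cons.1 hp with rfl | hp
      · exact Nat.mem_primeFactors.2 ⟨Nat.prime_three, h3, hD0.ne'⟩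
      · obtain ⟨a, b, _⟩ := hprime p ((hmem p).1 hp)
        exact Nat.mem_primeFactors.2 ⟨a, b, hD0.ne'⟩
    refine ⟨hI, ?_, ?_⟩
    · intro h
      exact hu1 (Subgroup.disjoint_def.1 hI.1 hu h)
    · apply XB_one_ne h3 le_rfl
      intro p hp
      have hp' := (hmem p).1 hp
      obtain ⟨a, b, c, d, _⟩ := hprime p hp'
      exact ⟨b, hdiv p hp' 3 Nat.prime_three h3 d⟩
  obtain ⟨L', hL'⟩ : ∃ L' : List ℕ, L' = E.primeFactors.toList := ⟨_, rfl⟩
  have hnd' : L'.Nodup := by rw [hL']; exact Finset.nodup_toList _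
  have htf' : L'.toFinset = E.primeFactors := by rw [hL']; exact Finset.toList_toFinset _
  have hmem' : ∀ p, p ∈ L' ↔ p ∈ E.primeFactors := by
    intro p; rw [← htf', List.mem_toFinset]
  obtain ⟨hI', huK, hnK⟩ := hgen L' hnd' htf'
  by_cases hnu : -u ∈ Pl (Gam D) L'
  · -- `-u` is in the product
    have hsq : ∀ p ∈ E.primeFactors, ¬ p * p ∣ E := by
      intro p hp hpp2
      obtain ⟨a, b, c, d, e⟩ := hprime p hp
      refine CP_neg_ne D p (e.trans hED) (by have := CP_five a c d; omega) u (hcu p e) ?_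
      refine Pl_Gam_cast D p (e.trans hED) L' ?_ (-u) hnu
      intro r hr
      have hr' := (hmem' r).1 hr
      refine ⟨(hprime r hr').2.1, ?_⟩
      by_cases hrp : r = p
      · subst hrp
        exact (Nat.dvd_div_iff_mul_dvd b).2 (hpp2.trans hED)
      · exact hdiv r hr' p a b hrp
    -- a good prime `q`
    obtain ⟨q, hq, hq11⟩ : ∃ q ∈ E.primeFactors, 11 ≤ q ∨ (q ≠ 5 ∧ D = 105) := by
      by_cases hex : ∃ q ∈ E.primeFactors, 11 ≤ q
      · obtain ⟨q, hq, h⟩ := hex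
        exact ⟨q, hq, Or.inl h⟩
      · push Not at hex
        have h57 : ∀ p ∈ E.primeFactors, p = 5 ∨ p = 7 := by
          intro p hp
          obtain ⟨a, b, c, d, e⟩ := hprime p hp
          have h5 := CP_five a c d
          have h11 := hex p hp
          have h6 : p ≠ 6 := by rintro rfl; norm_num at a
          have h8 : p ≠ 8 := by rintro rfl; norm_num at a
          have h9 : p ≠ 9 := by rintro rfl; norm_num at a
          have h10 : p ≠ 10 := by rintro rfl; norm_num at a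
          omega
        have hE1 : E ≠ 1 := by rintro rfl; omega
        obtain ⟨p, hp, hpE⟩ := Nat.exists_prime_and_dvd hE1
        have hpF : p ∈ E.primeFactors := Nat.mem_primeFactors.2 ⟨hp, hpE, hE0⟩
        obtain ⟨k, hk⟩ := hpE
        have hk1 : k ≠ 1 := by
          rintro rfl
          rw [mul_one] at hk
          exact hpr (hk ▸ hp)
        obtain ⟨r, hr, hrk⟩ := Nat.exists_prime_and_dvd hk1
        have hrE : r ∣ E := by rw [hk]; exact hrk.mul_left p
        have hrF : r ∈ E.primeFactors := Nat.mem_primeFactors.2 ⟨hr, hrE, hE0⟩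
        have hrp : r ≠ p := by
          rintro rfl
          exact hsq r hrF (by rw [hk]; exact mul_dvd_mul_left r hrk)
        have hpE : p ∣ E := ⟨k, hk⟩
        have hboth : 5 ∣ E ∧ 7 ∣ E := by
          rcases h57 p hpF with rfl | rfl <;> rcases h57 r hrF with rfl | rfl
          · exact absurd rfl hrp
          · exact ⟨hpE, hrE⟩
          · exact ⟨hrE, hpE⟩
          · exact absurd rfl hrp
        obtain ⟨j, hj⟩ : 35 ∣ E :=
          (show Nat.Coprime 5 7 by norm_num).mul_dvd_of_dvd_of_dvd hboth.1 hboth.2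
        have hj1 : j = 1 := by
          by_contra hj1
          obtain ⟨t, ht, htj⟩ := Nat.exists_prime_and_dvd hj1
          have htE : t ∣ E := by rw [hj]; exact htj.mul_left _
          have htF : t ∈ E.primeFactors := Nat.mem_primeFactors.2 ⟨ht, htE, hE0⟩
          refine hsq t htF ?_
          rw [hj]
          apply mul_dvd_mul _ htj
          rcases h57 t htF with rfl | rfl <;> norm_num
        refine ⟨7, Nat.mem_primeFactors.2 ⟨by norm_num, hboth.2, hE0⟩, Or.inr ⟨by norm_num, ?_⟩⟩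
        rw [hDE, hj, hj1]
    obtain ⟨qp, qd, q2, q3, qE⟩ := hprime q hq
    -- another prime
    obtain ⟨r, hr, hrq⟩ : ∃ r ∈ E.primeFactors, r ≠ q := by
      obtain ⟨k, hk⟩ := qE
      have hk1 : k ≠ 1 := by
        rintro rfl
        rw [mul_one] at hk
        exact hpr (hk ▸ qp)
      obtain ⟨r, hr, hrk⟩ := Nat.exists_prime_and_dvd hk1
      have hrE : r ∣ E := by rw [hk]; exact hrk.mul_left q
      refine ⟨r, Nat.mem_primeFactors.2 ⟨hr, hrE, hE0⟩, ?_⟩
      rintro rfl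
      exact hsq r hq (by rw [hk]; exact mul_dvd_mul_left r hrk)
    obtain ⟨rp, rd, r2, r3, rE⟩ := hprime r hr
    obtain ⟨L, hL⟩ : ∃ L : List ℕ, L = (E.primeFactors.erase q).toList := ⟨_, rfl⟩
    have hmem : ∀ p, p ∈ L ↔ p ≠ q ∧ p ∈ E.primeFactors := by
      intro p; rw [hL, Finset.mem_toList, Finset.mem_erase]
    have hnd0 : L.Nodup := by rw [hL]; exact Finset.nodup_toList _
    have hqL : q ∉ L := by rw [hmem]; simp
    have hnd : (q :: L).Nodup := List.nodup_cons.2 ⟨hqL, hnd0⟩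
    have htf : (q :: L).toFinset = E.primeFactors := by
      rw [List.toFinset_cons, hL, Finset.toList_toFinset, Finset.insert_erase hq]
    obtain ⟨hI, huQ, hnQ⟩ := hgen (q :: L) hnd htf
    have hnuQ : -u ∈ Pl (Gam D) (q :: L) := by
      refine CP_Pl_le (Gam D) L' _ ?_ hnu
      intro i hi
      apply CP_le_Pl
      rw [← List.mem_toFinset, htf]
      exact (hmem' i).1 hi
    have hsingle : ∀ p ∈ E.primeFactors, -u ∉ Gam D p := by
      intro p hp h
      obtain ⟨t, ht, htp⟩ : ∃ t ∈ E.primeFactors, p ≠ t := by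
        by_cases hpq : p = q
        · exact ⟨r, hr, by rw [hpq]; exact hrq.symm⟩
        · exact ⟨q, hq, hpq⟩
      obtain ⟨a, b, c, d, e⟩ := hprime t ht
      refine CP_neg_ne D t (e.trans hED) (by have := CP_five a c d; omega) u (hcu t e) ?_
      refine Pl_Gam_cast D t (e.trans hED) [p] ?_ (-u) (by
        show -u ∈ Gam D p ⊔ ⊥
        rw [sup_bot_eq]; exact h)
      intro s hs
      rw [List.mem_singleton] at hs
      subst hs
      exact ⟨(hprime s hp).2.1, hdiv s hp t a b htp⟩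
    obtain ⟨ε₁, he1, ε₂, he2, he⟩ := Subgroup.mem_sup.1 hnuQ
    have hsqe : ε₁ * ε₁ * (ε₂ * ε₂) = 1 := by
      have : ε₁ * ε₂ * (ε₁ * ε₂) = 1 := by rw [he, neg_mul_neg, huu]
      rw [← this]; exact mul_mul_mul_comm _ _ _ _
    have h11 : ε₁ * ε₁ = 1 := by
      refine Subgroup.disjoint_def.1 hI.2.1 ((Gam D q).mul_mem he1 he1) ?_
      rw [eq_inv_of_mul_eq_one_left hsqe]
      exact (Pl (Gam D) L).inv_mem ((Pl (Gam D) L).mul_mem he2 he2)
    have h22 : ε₂ * ε₂ = 1 := by rwa [h11, one_mul] at hsqe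
    have h10 : ε₁ ≠ 1 := by
      intro h
      rw [h, one_mul] at he
      rw [he] at he2
      refine CP_neg_ne D q (qE.trans hED) (by have := CP_five qp q2 q3; omega) u (hcu q qE) ?_
      refine Pl_Gam_cast D q (qE.trans hED) L ?_ (-u) he2
      intro s hs
      obtain ⟨hsq', hsE⟩ := (hmem s).1 hs
      exact ⟨(hprime s hsE).2.1, hdiv s hsE q qp qd hsq'⟩
    have h20 : ε₂ ≠ 1 := by
      intro h
      rw [h, mul_one] at he
      exact hsingle q hq (by rw [← he]; exact he1)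
    have hsup : ((univ.filter (fun x => P x ≠ 0)).card : ℤ) ≤ ∑ x, |P x| := card_supp_le P
    have hSl : ∀ a, 2 * (Sl (Gam D) (q :: L) P a : ℤ) ≤ ∑ x, |P x| := by
      intro a
      have h1 := XB_sl (Gam D) (q :: L) P u huQ hP a
      have h4 : (2 * (Sl (Gam D) (q :: L) P a : ℤ)) ≤
          ((univ.filter (fun x => P x ≠ 0)).card : ℤ) := by exact_mod_cast h1
      exact h4.trans hsup
    have hqq : (10 ≤ Nat.card (Gam D q) ∧ ∀ a, Sl (Gam D) (q :: L) P a ≤ 12) ∨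
        (6 ≤ Nat.card (Gam D q) ∧ ∀ a, Sl (Gam D) (q :: L) P a ≤ 11) := by
      rcases hq11 with h | ⟨h, h'⟩
      · left
        refine ⟨(hcard q hq).2.2 h, fun a => ?_⟩
        have := hSl a
        omega
      · right
        refine ⟨(hcard q hq).2.1 h, fun a => ?_⟩
        have h4 := hSl a
        have h5 := h105 h'
        omega
    have hev : ∀ y, P (ε₁ * ε₂ * y) = P y := by
      intro y
      rw [he, neg_mul, hodd, hP, neg_neg]
    refine CP_main u huu (Pl (Gam D) (q :: L)) P hodd hP h24 (Gam D) E.primeFactors ?_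
    intro y hy
    obtain ⟨p, hpL, hp6, hw⟩ := even_coset (Gam D) q L hnd hI.2
      (fun i hi => (hcard i ((hmem i).1 hi).2).1)
      (fun i hi j hj hij h4 => hpair i ((hmem i).1 hi).2 j ((hmem j).1 hj).2 hij h4)
      ε₁ ε₂ he1 he2 h11 h22 h10 h20 P (hM _ hnd htf) hev hqq y hy
    have hpE := ((hmem p).1 hpL).2
    have hpK : Gam D p ≤ Pl (Gam D) (q :: L) :=
      CP_le_Pl (Gam D) (q :: L) p (List.mem_cons_of_mem _ hpL)
    refine ⟨p, hpE, hp6, (hcard p hpE).1, hpK, fun h => huQ (hpK h), fun h => hnQ (hpK h),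
      hsingle p hpE, ?_⟩
    intro w hwK
    obtain ⟨hw1, hw2⟩ := hw w hwK
    rw [he, neg_mul] at hw1 hw2
    have b1 : u * w ∉ Gam D p := fun h => huQ (by
      have := (Pl (Gam D) (q :: L)).mul_mem (hpK h) ((Pl (Gam D) (q :: L)).inv_mem hwK)
      rwa [mul_inv_cancel_right] at this)
    have b2 : -w ∉ Gam D p := fun h => hnQ (by
      have := (Pl (Gam D) (q :: L)).mul_mem (hpK h) ((Pl (Gam D) (q :: L)).inv_mem hwK)
      rwa [neg_mul, mul_inv_cancel] at this)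
    unfold orb
    rw [CP_ind_neg _ _ b1, CP_ind_neg _ _ b2]
    by_cases c1 : w ∈ Gam D p
    · have c2 : -(u * w) ∉ Gam D p := fun h => hsingle p hpE (by
        have := (Gam D p).mul_mem h ((Gam D p).inv_mem c1)
        rwa [neg_mul, mul_inv_cancel_right] at this)
      rw [CP_ind_pos _ _ c1, CP_ind_neg _ _ c2, hw1 (Or.inl c1)]
      ring
    · by_cases c2 : -(u * w) ∈ Gam D p
      · rw [CP_ind_neg _ _ c1, CP_ind_pos _ _ c2, hw1 (Or.inr c2)]
        ring
      · rw [CP_ind_neg _ _ c1, CP_ind_neg _ _ c2, hw2 c1 c2]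
        ring
  · -- `-u` is not in the product
    refine CP_main u huu (Pl (Gam D) L') P hodd hP h24 (Gam D) E.primeFactors ?_
    intro y hy
    have hS6 : Sl (Gam D) L' P y ≤ 6 := by
      have := CP_sl4 (Gam D) L' u huK hnK hnu P hodd hP y
      omega
    obtain ⟨p, hpL, hp6, hw⟩ := single_coset (Gam D) L' hnd' hI'.2
      (fun i hi => (hcard i ((hmem' i).1 hi)).1)
      (fun i hi j hj hij h4 => hpair i ((hmem' i).1 hi) j ((hmem' j).1 hj) hij h4)
      P (hM _ hnd' htf') y hy hS6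
    have hpE := (hmem' p).1 hpL
    have hpK : Gam D p ≤ Pl (Gam D) L' := CP_le_Pl (Gam D) L' p hpL
    refine ⟨p, hpE, hp6, (hcard p hpE).1, hpK, fun h => huK (hpK h), fun h => hnK (hpK h),
      fun h => hnu (hpK h), ?_⟩
    intro w hwK
    obtain ⟨hw1, hw2⟩ := hw w hwK
    have b1 : u * w ∉ Gam D p := fun h => huK (by
      have := (Pl (Gam D) L').mul_mem (hpK h) ((Pl (Gam D) L').inv_mem hwK)
      rwa [mul_inv_cancel_right] at this)
    have b2 : -w ∉ Gam D p := fun h => hnK (by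
      have := (Pl (Gam D) L').mul_mem (hpK h) ((Pl (Gam D) L').inv_mem hwK)
      rwa [neg_mul, mul_inv_cancel] at this)
    have b3 : -(u * w) ∉ Gam D p := fun h => hnu (by
      have := (Pl (Gam D) L').mul_mem (hpK h) ((Pl (Gam D) L').inv_mem hwK)
      rwa [neg_mul, mul_inv_cancel_right] at this)
    unfold orb
    rw [CP_ind_neg _ _ b1, CP_ind_neg _ _ b2, CP_ind_neg _ _ b3]
    by_cases c1 : w ∈ Gam D p
    · rw [CP_ind_pos _ _ c1, hw1 c1]; ring
    · rw [CP_ind_neg _ _ c1, hw2 c1]; ring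

end Pool.Agent.helper88.OF
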