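import Pool.Agent.helper88.OF.Defs
import Pool.Agent.helper30.QR.XB
import Pool.Agent.helper49.OF.SR
import Pool.Agent.helper49.OF.K3

/-! # Project OF, module D9: orders divisible by 9 -/

namespace Pool.Agent.helper88.OF

open Finset Pool.Agent.helper76.LP

lemma D9_five {p : ℕ} (hp : p.Prime) (h2 : p ≠ 2) (h3 : p ≠ 3) : 5 ≤ p := by
  have := hp.two_le
  have h4 : p ≠ 4 := by rintro rfl; norm_num at hp
  omega

lemma D9_card (D p : ℕ) [NeZero D] (hp : p ∈ D.primeFactors) (h2 : p ≠ 2) (h3 : p ≠ 3) :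
    4 ≤ Nat.card (Gam D p) ∧ (p ≠ 5 → 6 ≤ Nat.card (Gam D p)) := by
  have hpp := Nat.prime_of_mem_primeFactors hp
  have hpd := Nat.dvd_of_mem_primeFactors hp
  have h5 := D9_five hpp h2 h3
  rw [card_Gam D p hpp hpd]
  have h6 : p ≠ 6 := by rintro rfl; norm_num at hpp
  constructor
  · split_ifs <;> omega
  · intro h
    split_ifs <;> omega

theorem dec_nine (D : ℕ) [NeZero D] (h2 : Odd D) (h9 : 9 ∣ D) (f : (ZMod D)ˣ → ℤ)
    (hodd : ∀ x, f (-x) = - f x)
    (hf : ∀ L : List ℕ, L.Nodup → L.toFinset = D.primeFactors → MDv (Gam D) L f)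
    (h12 : ∑ x, |f x| ≤ 12) : Dec D f := by
  classical
  have hD : D % 4 ≠ 2 := by
    intro h
    obtain ⟨k, hk⟩ := h2
    omega
  have hD0 : 0 < D := Nat.pos_of_ne_zero (NeZero.ne D)
  have hsupp := XB_supp f h12
  have h3D : 3 ∣ D := (by norm_num : (3 : ℕ) ∣ 9).trans h9
  have h3 : 3 ∈ D.primeFactors := Nat.mem_primeFactors.2 ⟨Nat.prime_three, h3D, hD0.ne'⟩
  have hne2 : ∀ p ∈ D.primeFactors, p ≠ 2 := by
    rintro p hp rfl
    have := Nat.dvd_of_mem_primeFactors hp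
    exact (Nat.not_even_iff_odd.2 h2) (even_iff_two_dvd.2 this)
  obtain ⟨L0, hL0⟩ : ∃ L0 : List ℕ, L0 = (D.primeFactors.erase 3).toList := ⟨_, rfl⟩
  have hmem : ∀ p, p ∈ L0 ↔ p ≠ 3 ∧ p ∈ D.primeFactors := by
    intro p; rw [hL0, Finset.mem_toList, Finset.mem_erase]
  have hnd0 : L0.Nodup := by rw [hL0]; exact Finset.nodup_toList _
  have hqL : 3 ∉ L0 := by rw [hmem]; simp
  have hnd : (3 :: L0).Nodup := List.nodup_cons.2 ⟨hqL, hnd0⟩
  have htf : (3 :: L0).toFinset = D.primeFactors := by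
    rw [List.toFinset_cons, hL0, Finset.toList_toFinset, Finset.insert_erase h3]
  have hI : Indep (Gam D) (3 :: L0) := indep_Gam D _ hnd (by
    intro p hp
    rw [← htf, List.mem_toFinset]; exact hp)
  have hMD := hf _ hnd htf
  have hc : ∀ p ∈ L0, 4 ≤ Nat.card (Gam D p) ∧ (p ≠ 5 → 6 ≤ Nat.card (Gam D p)) := by
    intro p hp
    obtain ⟨hp3, hpD⟩ := (hmem p).1 hp
    exact D9_card D p hpD (hne2 p hpD) hp3
  have hpair : ∀ p ∈ L0, ∀ q ∈ L0, p ≠ q → 6 ≤ Nat.card (Gam D p) ∨ 6 ≤ Nat.card (Gam D q) := by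
    intro p hp q hq hpq
    by_cases h5 : p = 5
    · right
      exact (hc q hq).2 (by rw [h5] at hpq; exact hpq.symm)
    · left
      exact (hc p hp).2 h5
  have h3c : Nat.card (Gam D 3) = 3 := by
    rw [card_Gam D 3 Nat.prime_three h3D, if_pos (by norm_num; exact h9)]
  -- `-1` is not in the product
  have hm1 : (-1 : (ZMod D)ˣ) ∉ Pl (Gam D) (3 :: L0) := by
    apply XB_one_ne h3D (by norm_num)
    intro p hp
    have hpD : p ∈ D.primeFactors := by rw [← htf, List.mem_toFinset]; exact hp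
    have hpp := Nat.prime_of_mem_primeFactors hpD
    have hpd := Nat.dvd_of_mem_primeFactors hpD
    refine ⟨hpd, ?_⟩
    by_cases h : p = 3
    · subst h
      rw [Nat.dvd_div_iff_mul_dvd hpd]
      norm_num
      exact h9
    · have hcop : Nat.Coprime p 3 := (Nat.coprime_primes hpp Nat.prime_three).2 h
      exact (Nat.dvd_div_iff_mul_dvd hpd).2 (hcop.mul_dvd_of_dvd_of_dvd hpd h3D)
  have hodd' : ∀ x : (ZMod D)ˣ, f (-1 * x) = - f x := by
    intro x; rw [neg_one_mul, hodd]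
  have hS6 : ∀ a, Sl (Gam D) (3 :: L0) f a ≤ 6 := by
    intro a
    have := XB_sl (Gam D) (3 :: L0) f (-1) hm1 hodd' a
    omega
  apply dec_of_strDec D hD f hodd (3 :: L0) hnd htf
  obtain ⟨ρ, r1, r2, r3, r4, r5, r7⟩ := structure_step_slices (Gam D) 3 L0 hI f hMD
    (fun x => slices_three (Gam D) 3 L0 hnd hI h3c (fun j hj => (hc j hj).1)
      (by
        intro j hj k hk hjk h4
        rcases hpair j hj k hk hjk with h | h <;> omega) f hMD x (hS6 x)) h3c
  apply structure_cons (Gam D) 3 L0 hqL f ρ r1 r3 r7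
  apply structure_thm _ L0 hnd0 hI.2 _ r2
  intro a i hi j hj hij
  have h1 := (hc i hi).1
  have h2' := (hc j hj).1
  have h6 := (r4 a).trans (hS6 a)
  rcases hpair i hi j hj hij with h | h
  · have : 6 * 4 ≤ Nat.card (Gam D i) * Nat.card (Gam D j) := Nat.mul_le_mul h h2'
    omega
  · have : 4 * 6 ≤ Nat.card (Gam D i) * Nat.card (Gam D j) := Nat.mul_le_mul h1 h
    omega

end Pool.Agent.helper88.OF
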